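import Pool.Agent.OddZetaV.F9.Data
import Pool.Agent.OddZetaV.F9.Cells

/-! Kernel check of a part of the table.  Seat: helper57. -/

namespace Pool.Agent.OddZetaV.F9

open Pool.Agent.OddZetaG Pool.Agent.OddZetaG.Tab

set_option maxRecDepth 100000 in
theorem ok_T1b16 : T1b16.all (cellP F) = true := by decide +kernel

set_option maxRecDepth 100000 in
theorem ok_T1b17 : T1b17.all (cellP F) = true := by decide +kernel

set_option maxRecDepth 100000 in
theorem ok_T1b18 : T1b18.all (cellP F) = true := by decide +kernel

set_option maxRecDepth 100000 in
theorem ok_T1b19 : T1b19.all (cellP F) = true := by decide +kernel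

set_option maxRecDepth 100000 in
theorem ok_T1b20 : T1b20.all (cellP F) = true := by decide +kernel

set_option maxRecDepth 100000 in
theorem ok_T1b21 : T1b21.all (cellP F) = true := by decide +kernel

set_option maxRecDepth 100000 in
theorem ok_T1b22 : T1b22.all (cellP F) = true := by decide +kernel

set_option maxRecDepth 100000 in
theorem ok_T1b23 : T1b23.all (cellP F) = true := by decide +kernel

end Pool.Agent.OddZetaV.F9
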