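import Pool.Agent.OddZetaV.F9.Data
import Pool.Agent.OddZetaV.F9.Cells

/-! Kernel check of a part of the table.  Seat: helper57. -/

namespace Pool.Agent.OddZetaV.F9

open Pool.Agent.OddZetaG Pool.Agent.OddZetaG.Tab

set_option maxRecDepth 100000 in
theorem ok_T1b40 : T1b40.all (cellP F) = true := by decide +kernel

set_option maxRecDepth 100000 in
theorem ok_T1b41 : T1b41.all (cellP F) = true := by decide +kernel

set_option maxRecDepth 100000 in
theorem ok_T1b42 : T1b42.all (cellP F) = true := by decide +kernel

set_option maxRecDepth 100000 in
theorem ok_T1b43 : T1b43.all (cellP F) = true := by decide +kernel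

set_option maxRecDepth 100000 in
theorem ok_T1b44 : T1b44.all (cellP F) = true := by decide +kernel

set_option maxRecDepth 100000 in
theorem ok_T1b45 : T1b45.all (cellP F) = true := by decide +kernel

set_option maxRecDepth 100000 in
theorem ok_T1b46 : T1b46.all (cellP F) = true := by decide +kernel

set_option maxRecDepth 100000 in
theorem ok_T1b47 : T1b47.all (cellP F) = true := by decide +kernel

end Pool.Agent.OddZetaV.F9
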