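import Pool.Agent.OddZetaV.F9.Data
import Pool.Agent.OddZetaV.F9.Cells

/-! Kernel check of a part of the table.  Seat: helper57. -/

namespace Pool.Agent.OddZetaV.F9

open Pool.Agent.OddZetaG Pool.Agent.OddZetaG.Tab

def Bf0 (i : Nat) : Nat :=
  match i with
  | 0 => 14810547207
  | 1 => 4920252868
  | 2 => 2458499942
  | 3 => 1474832306
  | 4 => 983181074
  | 5 => 702280477
  | 6 => 526729165
  | 7 => 409698123
  | 8 => 327777030
  | 9 => 268197943
  | 10 => 223513159
  | 11 => 189140079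
  | 12 => 162132253
  | 13 => 140525835
  | 14 => 122970354
  | _ => 0

set_option maxRecDepth 100000 in
theorem num0_T0 : sumUb 0 (T0.map v0) ≤ 571500001004 := Nat.le_of_ble_eq_true (by decide +kernel)

set_option maxRecDepth 100000 in
theorem num0_T1b : sumUb 0 (T1b.map v0) ≤ 744466633514 := Nat.le_of_ble_eq_true (by decide +kernel)

set_option maxRecDepth 100000 in
theorem num0_1 : sumUb (0 + 1) ((T1a ++ T1b).map v0) ≤ Bf0 0 := Nat.le_of_ble_eq_true (by decide +kernel)

set_option maxRecDepth 100000 in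
theorem num0_2 : sumUb (1 + 1) ((T1a ++ T1b).map v0) ≤ Bf0 1 := Nat.le_of_ble_eq_true (by decide +kernel)

set_option maxRecDepth 100000 in
theorem num0_3 : sumUb (2 + 1) ((T1a ++ T1b).map v0) ≤ Bf0 2 := Nat.le_of_ble_eq_true (by decide +kernel)

set_option maxRecDepth 100000 in
theorem num0_4 : sumUb (3 + 1) ((T1a ++ T1b).map v0) ≤ Bf0 3 := Nat.le_of_ble_eq_true (by decide +kernel)

set_option maxRecDepth 100000 in
theorem num0_5 : sumUb (4 + 1) ((T1a ++ T1b).map v0) ≤ Bf0 4 := Nat.le_of_ble_eq_true (by decide +kernel)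

set_option maxRecDepth 100000 in
theorem num0_6 : sumUb (5 + 1) ((T1a ++ T1b).map v0) ≤ Bf0 5 := Nat.le_of_ble_eq_true (by decide +kernel)

set_option maxRecDepth 100000 in
theorem num0_7 : sumUb (6 + 1) ((T1a ++ T1b).map v0) ≤ Bf0 6 := Nat.le_of_ble_eq_true (by decide +kernel)

set_option maxRecDepth 100000 in
theorem num0_8 : sumUb (7 + 1) ((T1a ++ T1b).map v0) ≤ Bf0 7 := Nat.le_of_ble_eq_true (by decide +kernel)

set_option maxRecDepth 100000 in
theorem num0_9 : sumUb (8 + 1) ((T1a ++ T1b).map v0) ≤ Bf0 8 := Nat.le_of_ble_eq_true (by decide +kernel)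

set_option maxRecDepth 100000 in
theorem num0_10 : sumUb (9 + 1) ((T1a ++ T1b).map v0) ≤ Bf0 9 := Nat.le_of_ble_eq_true (by decide +kernel)

set_option maxRecDepth 100000 in
theorem num0_11 : sumUb (10 + 1) ((T1a ++ T1b).map v0) ≤ Bf0 10 := Nat.le_of_ble_eq_true (by decide +kernel)

set_option maxRecDepth 100000 in
theorem num0_12 : sumUb (11 + 1) ((T1a ++ T1b).map v0) ≤ Bf0 11 := Nat.le_of_ble_eq_true (by decide +kernel)

set_option maxRecDepth 100000 in
theorem num0_13 : sumUb (12 + 1) ((T1a ++ T1b).map v0) ≤ Bf0 12 := Nat.le_of_ble_eq_true (by decide +kernel)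

set_option maxRecDepth 100000 in
theorem num0_14 : sumUb (13 + 1) ((T1a ++ T1b).map v0) ≤ Bf0 13 := Nat.le_of_ble_eq_true (by decide +kernel)

set_option maxRecDepth 100000 in
theorem num0_15 : sumUb (14 + 1) ((T1a ++ T1b).map v0) ≤ Bf0 14 := Nat.le_of_ble_eq_true (by decide +kernel)

def Bf1 (i : Nat) : Nat :=
  match i with
  | 0 => 7608662525
  | 1 => 2529265558
  | 2 => 1263999142
  | 3 => 758309052
  | 4 => 505533566
  | 5 => 361105455
  | 6 => 270841308
  | 7 => 210665811
  | 8 => 168542821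
  | 9 => 137907624
  | 10 => 114930884
  | 11 => 97256300
  | 12 => 83368888
  | 13 => 72258849
  | 14 => 63231792
  | _ => 0

set_option maxRecDepth 100000 in
theorem num1_T0 : sumUb 0 (T0.map v1) ≤ 267000000475 := Nat.le_of_ble_eq_true (by decide +kernel)

set_option maxRecDepth 100000 in
theorem num1_T1b : sumUb 0 (T1b.map v1) ≤ 377405158006 := Nat.le_of_ble_eq_true (by decide +kernel)

set_option maxRecDepth 100000 in
theorem num1_1 : sumUb (0 + 1) ((T1a ++ T1b).map v1) ≤ Bf1 0 := Nat.le_of_ble_eq_true (by decide +kernel)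

set_option maxRecDepth 100000 in
theorem num1_2 : sumUb (1 + 1) ((T1a ++ T1b).map v1) ≤ Bf1 1 := Nat.le_of_ble_eq_true (by decide +kernel)

set_option maxRecDepth 100000 in
theorem num1_3 : sumUb (2 + 1) ((T1a ++ T1b).map v1) ≤ Bf1 2 := Nat.le_of_ble_eq_true (by decide +kernel)

set_option maxRecDepth 100000 in
theorem num1_4 : sumUb (3 + 1) ((T1a ++ T1b).map v1) ≤ Bf1 3 := Nat.le_of_ble_eq_true (by decide +kernel)

set_option maxRecDepth 100000 in
theorem num1_5 : sumUb (4 + 1) ((T1a ++ T1b).map v1) ≤ Bf1 4 := Nat.le_of_ble_eq_true (by decide +kernel)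

set_option maxRecDepth 100000 in
theorem num1_6 : sumUb (5 + 1) ((T1a ++ T1b).map v1) ≤ Bf1 5 := Nat.le_of_ble_eq_true (by decide +kernel)

set_option maxRecDepth 100000 in
theorem num1_7 : sumUb (6 + 1) ((T1a ++ T1b).map v1) ≤ Bf1 6 := Nat.le_of_ble_eq_true (by decide +kernel)

set_option maxRecDepth 100000 in
theorem num1_8 : sumUb (7 + 1) ((T1a ++ T1b).map v1) ≤ Bf1 7 := Nat.le_of_ble_eq_true (by decide +kernel)

set_option maxRecDepth 100000 in
theorem num1_9 : sumUb (8 + 1) ((T1a ++ T1b).map v1) ≤ Bf1 8 := Nat.le_of_ble_eq_true (by decide +kernel)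

set_option maxRecDepth 100000 in
theorem num1_10 : sumUb (9 + 1) ((T1a ++ T1b).map v1) ≤ Bf1 9 := Nat.le_of_ble_eq_true (by decide +kernel)

set_option maxRecDepth 100000 in
theorem num1_11 : sumUb (10 + 1) ((T1a ++ T1b).map v1) ≤ Bf1 10 := Nat.le_of_ble_eq_true (by decide +kernel)

set_option maxRecDepth 100000 in
theorem num1_12 : sumUb (11 + 1) ((T1a ++ T1b).map v1) ≤ Bf1 11 := Nat.le_of_ble_eq_true (by decide +kernel)

set_option maxRecDepth 100000 in
theorem num1_13 : sumUb (12 + 1) ((T1a ++ T1b).map v1) ≤ Bf1 12 := Nat.le_of_ble_eq_true (by decide +kernel)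

set_option maxRecDepth 100000 in
theorem num1_14 : sumUb (13 + 1) ((T1a ++ T1b).map v1) ≤ Bf1 13 := Nat.le_of_ble_eq_true (by decide +kernel)

set_option maxRecDepth 100000 in
theorem num1_15 : sumUb (14 + 1) ((T1a ++ T1b).map v1) ≤ Bf1 14 := Nat.le_of_ble_eq_true (by decide +kernel)

end Pool.Agent.OddZetaV.F9
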